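import Pool.Agent.Helper94.GA.Goals

/-! Packet CAST of helper94's project GA: moving an element of a field algebraic over the
rationals to the complex numbers. -/

set_option autoImplicit false

namespace Pool.Agent.Helper85.GA

open Pool.Agent.Helper94.GA

universe u

theorem CAST : CAST_stmt.{u} := by
  intro K _ _ hK α h0 h1 h2 h3
  haveI := hK
  let σ : K →ₐ[ℚ] ℂ := IsAlgClosed.lift
  let τ : K →ₐ[ℤ] ℂ := (σ : K →+* ℂ).toIntAlgHom
  have hτ : Function.Injective τ := (σ : K →+* ℂ).injective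
  refine ⟨τ α, fun h => h0 (hτ (by rw [h, map_zero])), h1.map τ, ?_, ?_, ?_⟩
  · have h4 : (τ α)⁻¹ = τ α⁻¹ := (map_inv₀ (σ : K →+* ℂ) α).symm
    rw [h4]
    exact h2.map τ
  · intro k hk h
    apply h3 k hk
    apply hτ
    rw [map_pow, h, map_one]
  · unfold mah
    rw [minpoly.algHom_eq τ hτ α]

end Pool.Agent.Helper85.GA
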